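import Mathlib

set_option autoImplicit false

/-!
A Pajor type inequality for boxes contained in coordinate projections of a family of functions.
-/

namespace Pool.Agent.H184R3

open Finset

variable {α : Type*} [Fintype α] [DecidableEq α]

/-- The boxes (with all nonempty sides of size `s`) contained in coordinate projections of `F`. -/
def IsBox (s : ℕ) {n : ℕ} (F : Finset (Fin n → α)) (R : Fin n → Finset α) : Prop :=
  (∀ j, R j = ∅ ∨ (R j).card = s) ∧
    ∀ g : Fin n → α, (∀ j, R j ≠ ∅ → g j ∈ R j) → ∃ f ∈ F, ∀ j, R j ≠ ∅ → f j = g j

open Classical in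
/-- The finset of boxes. -/
noncomputable def Boxes (s : ℕ) {n : ℕ} (F : Finset (Fin n → α)) : Finset (Fin n → Finset α) :=
  Finset.univ.filter (fun R => IsBox s F R)

omit [DecidableEq α] in
theorem mem_Boxes {s n : ℕ} {F : Finset (Fin n → α)} {R : Fin n → Finset α} :
    R ∈ Boxes s F ↔ IsBox s F R := by
  classical
  simp [Boxes]

theorem choose_aux (d s : ℕ) (hs : 1 ≤ s) : d ≤ s * (1 + d.choose s) := by
  induction d with
  | zero => omega
  | succ d ih =>
    by_cases h : d + 1 ≤ s
    · calc d + 1 ≤ s * 1 := by omega
        _ ≤ _ := Nat.mul_le_mul_left _ (by omega)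
    · obtain ⟨s', rfl⟩ : ∃ s', s = s' + 1 := ⟨s - 1, by omega⟩
      have h1 : 1 ≤ d.choose s' := Nat.choose_pos (by omega)
      rw [Nat.choose_succ_succ']
      calc d + 1 ≤ (s' + 1) * (1 + d.choose (s' + 1)) + (s' + 1) * 1 := by
            have := ih
            nlinarith
        _ = (s' + 1) * (1 + (1 + d.choose (s' + 1))) := by ring
        _ ≤ _ := by
            apply Nat.mul_le_mul_left
            omega

theorem box_lemma (s : ℕ) (hs : 1 ≤ s) : ∀ (n : ℕ) (F : Finset (Fin n → α)),
    F.card ≤ s ^ n * (Boxes s F).card := by
  classical
  intro n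
  induction n with
  | zero =>
    intro F
    rcases F.eq_empty_or_nonempty with rfl | ⟨f, hf⟩
    · simp
    · have h1 : F.card ≤ 1 := by
        calc F.card ≤ (Finset.univ : Finset (Fin 0 → α)).card := Finset.card_le_univ F
          _ = 1 := by simp
      have h2 : 0 < (Boxes s F).card := by
        apply Finset.card_pos.2
        refine ⟨fun _ => ∅, mem_Boxes.2 ⟨fun j => j.elim0, fun g _ => ⟨f, hf, fun j => j.elim0⟩⟩⟩
      simp only [pow_zero, one_mul]
      omega
  | succ n ih =>
    intro F
    -- the slices
    let Fa : α → Finset (Fin n → α) := fun a => (F.filter (fun f => f 0 = a)).image Fin.tail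
    have hFa : ∀ a, (Fa a).card = (F.filter (fun f => f 0 = a)).card := by
      intro a
      apply Finset.card_image_of_injOn
      intro f hf g hg hfg
      have hf0 : f 0 = a := (Finset.mem_filter.1 hf).2
      have hg0 : g 0 = a := (Finset.mem_filter.1 hg).2
      rw [← Fin.cons_self_tail f, ← Fin.cons_self_tail g, hf0, hg0, hfg]
    have hFcard : F.card = ∑ a, (Fa a).card := by
      simp_rw [hFa]
      exact (Finset.card_eq_sum_card_fiberwise (fun f _ => Finset.mem_univ (f 0)))
    let D : (Fin n → Finset α) → Finset α := fun R => Finset.univ.filter (fun a => IsBox s (Fa a) R)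
    have hsum : ∑ a, (Boxes s (Fa a)).card = ∑ R : Fin n → Finset α, (D R).card := by
      simp only [Boxes, D, Finset.card_filter]
      rw [Finset.sum_comm]
    let U : Finset (Fin n → Finset α) := Finset.univ.filter (fun R => (D R).Nonempty)
    have hsumU : ∑ R : Fin n → Finset α, (D R).card = ∑ R ∈ U, (D R).card := by
      symm
      apply Finset.sum_subset (Finset.subset_univ _)
      intro R _ hR
      simp only [U, Finset.mem_filter, Finset.mem_univ, true_and,
        Finset.not_nonempty_iff_eq_empty] at hR
      simp [hR]
    let T : Finset (Σ _ : Fin n → Finset α, Finset α) :=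
      U.sigma (fun R => insert ∅ (Finset.powersetCard s (D R)))
    have hempty : ∀ R, (∅ : Finset α) ∉ Finset.powersetCard s (D R) := by
      intro R h
      rw [Finset.mem_powersetCard] at h
      have := h.2
      simp at this
      omega
    have hTcard : T.card = ∑ R ∈ U, (1 + (D R).card.choose s) := by
      simp only [T, Finset.card_sigma]
      apply Finset.sum_congr rfl
      intro R _
      rw [Finset.card_insert_of_notMem (hempty R), Finset.card_powersetCard]
      ring
    have hTle : T.card ≤ (Boxes s F).card := by
      apply Finset.card_le_card_of_injOn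
        (fun p => (Fin.cons p.2 p.1 : Fin (n + 1) → Finset α))
      · intro p hp
        obtain ⟨R, A⟩ := p
        have hp : (⟨R, A⟩ : Σ _ : Fin n → Finset α, Finset α) ∈ T := hp
        simp only [T, Finset.mem_sigma, Finset.mem_insert, U, Finset.mem_filter, Finset.mem_univ,
          true_and] at hp
        obtain ⟨⟨a0, ha0⟩, hA⟩ := hp
        have ha0' : IsBox s (Fa a0) R := (Finset.mem_filter.1 ha0).2
        simp only [Finset.mem_coe, mem_Boxes]
        refine ⟨?_, ?_⟩
        · intro j
          refine Fin.cases ?_ (fun j => ?_) j
          · simp only [Fin.cons_zero]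
            rcases hA with rfl | hA
            · exact Or.inl rfl
            · exact Or.inr (Finset.mem_powersetCard.1 hA).2
          · simp only [Fin.cons_succ]
            exact ha0'.1 j
        · intro g hg
          have hgt : ∀ j, R j ≠ ∅ → (Fin.tail g) j ∈ R j := by
            intro j hj
            have := hg j.succ
            simp only [Fin.cons_succ] at this
            exact this hj
          rcases hA with rfl | hA
          · obtain ⟨f', hf', hfg⟩ := ha0'.2 (Fin.tail g) hgt
            obtain ⟨f, hf, rfl⟩ := Finset.mem_image.1 hf'
            refine ⟨f, (Finset.mem_filter.1 hf).1, ?_⟩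
            intro j
            refine Fin.cases ?_ (fun j => ?_) j
            · simp
            · simp only [Fin.cons_succ]
              intro hj
              exact hfg j hj
          · have hAne : A ≠ ∅ := by
              rintro rfl
              exact hempty R hA
            have hg0 : g 0 ∈ A := by
              have := hg 0
              simp only [Fin.cons_zero] at this
              exact this hAne
            have hg0' : IsBox s (Fa (g 0)) R :=
              (Finset.mem_filter.1 ((Finset.mem_powersetCard.1 hA).1 hg0)).2
            obtain ⟨f', hf', hfg⟩ := hg0'.2 (Fin.tail g) hgt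
            obtain ⟨f, hf, rfl⟩ := Finset.mem_image.1 hf'
            refine ⟨f, (Finset.mem_filter.1 hf).1, ?_⟩
            intro j
            refine Fin.cases ?_ (fun j => ?_) j
            · intro _
              exact (Finset.mem_filter.1 hf).2
            · simp only [Fin.cons_succ]
              intro hj
              exact hfg j hj
      · intro p _ q _ hpq
        obtain ⟨R, A⟩ := p
        obtain ⟨R', A'⟩ := q
        have h := Fin.cons_inj.1 hpq
        obtain ⟨rfl, rfl⟩ := h
        rfl
    calc F.card = ∑ a, (Fa a).card := hFcard
      _ ≤ ∑ a, s ^ n * (Boxes s (Fa a)).card := Finset.sum_le_sum (fun a _ => ih (Fa a))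
      _ = s ^ n * ∑ R ∈ U, (D R).card := by rw [← Finset.mul_sum, hsum, hsumU]
      _ ≤ s ^ n * ∑ R ∈ U, s * (1 + (D R).card.choose s) := by
          gcongr
          exact choose_aux _ s hs
      _ = s ^ (n + 1) * T.card := by
          rw [hTcard, ← Finset.mul_sum]
          ring
      _ ≤ _ := by gcongr

end Pool.Agent.H184R3
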