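import Mathlib

set_option autoImplicit false

/-!
The theorem of Erdos and Szekeres, after the file of Bhavik Mehta in the archive of Mathlib.
-/

open Function Finset

namespace Pool.Agent.H184R3.ES

variable {α β : Type*} [Fintype α] [LinearOrder α] [LinearOrder β] {f : α → β} {i : α}

/-- The possible lengths of an increasing sequence which ends at `i`. -/
noncomputable def incSequencesTo (f : α → β) (i : α) : Finset ℕ :=
  open scoped Classical in
  image card {t : Finset α | IsGreatest t i ∧ StrictMonoOn f t}

/-- The possible lengths of a decreasing sequence which ends at `i`. -/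
noncomputable def decSequencesTo (f : α → β) (i : α) : Finset ℕ :=
  open scoped Classical in
  image card {t : Finset α | IsGreatest t i ∧ StrictAntiOn f t}

/-- The singleton sequence is increasing, so 1 is a possible length. -/
lemma one_mem_incSequencesTo : 1 ∈ incSequencesTo f i := mem_image.2 ⟨{i}, by simp⟩
/-- The singleton sequence is decreasing, so 1 is a possible length. -/
lemma one_mem_decSequencesTo : 1 ∈ decSequencesTo f i := one_mem_incSequencesTo (β := βᵒᵈ)

/-- The singleton sequence is increasing, so the set of lengths is nonempty. -/
lemma incSequencesTo_nonempty : (incSequencesTo f i).Nonempty := ⟨1, one_mem_incSequencesTo⟩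
/-- The singleton sequence is decreasing, so the set of lengths is nonempty. -/
lemma decSequencesTo_nonempty : (decSequencesTo f i).Nonempty := ⟨1, one_mem_decSequencesTo⟩

/-- The maximum length of an increasing sequence which ends at `i`. -/
noncomputable def maxIncSequencesTo (f : α → β) (i : α) : ℕ :=
  max' (incSequencesTo f i) incSequencesTo_nonempty

/-- The maximum length of a decreasing sequence which ends at `i`. -/
noncomputable def maxDecSequencesTo (f : α → β) (i : α) : ℕ :=
  max' (decSequencesTo f i) decSequencesTo_nonempty

lemma one_le_maxIncSequencesTo : 1 ≤ maxIncSequencesTo f i :=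
  le_max' _ _ one_mem_incSequencesTo
lemma one_le_maxDecSequencesTo : 1 ≤ maxDecSequencesTo f i :=
  le_max' _ _ one_mem_decSequencesTo

lemma maxIncSequencesTo_mem : maxIncSequencesTo f i ∈ incSequencesTo f i :=
  max'_mem _ incSequencesTo_nonempty
lemma maxDecSequencesTo_mem : maxDecSequencesTo f i ∈ decSequencesTo f i :=
  max'_mem _ decSequencesTo_nonempty

/--
We will want to show that if `i ≠ j`, then the pairs
`(maxIncSequencesTo f i, maxDecSequencesTo f i)` and
`(maxIncSequencesTo f j, maxDecSequencesTo f j)` are different.
To this end, we will assume wlog that `i < j`, and show that if `f i < f j`,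
then `maxIncSequencesTo f i < maxIncSequencesTo f j`, and later dualise to prove that if `f j < f i`
then `maxDecSequencesTo f i < maxDecSequencesTo f j`.
-/
lemma maxIncSequencesTo_lt {i j : α} (hij : i < j) (hfij : f i < f j) :
    maxIncSequencesTo f i < maxIncSequencesTo f j := by
  rw [Nat.lt_iff_add_one_le]
  refine le_max' _ _ ?_
  have : maxIncSequencesTo f i ∈ incSequencesTo f i := max'_mem _ incSequencesTo_nonempty
  simp only [incSequencesTo, mem_image, mem_filter, mem_univ, true_and, and_assoc] at this
  obtain ⟨t, hti, ht₁, ht₂⟩ := this
  simp only [incSequencesTo, mem_image, mem_filter, mem_univ, true_and, and_assoc]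
  have : ∀ x ∈ t, x < j := by
    intro x hx
    exact (hti.2 hx).trans_lt hij
  refine ⟨insert j t, ?_, ?_, ?_⟩
  next =>
    convert hti.insert j
    next => simp
    next => rw [max_eq_left hij.le]
  next =>
    simp only [coe_insert]
    rw [strictMonoOn_insert_iff_of_forall_le]
    · refine ⟨?_, ht₁⟩
      intro x hx hxj
      exact (ht₁.monotoneOn hx hti.1 (hti.2 hx)).trans_lt hfij
    · exact fun x hx ↦ (this x hx).le
  have : j ∉ t := fun hj ↦ lt_irrefl _ (this _ hj)
  simp [this, ht₂]

lemma maxDecSequencesTo_gt {i j : α} (hij : i < j) (hfij : f j < f i) :
    maxDecSequencesTo f i < maxDecSequencesTo f j :=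
  maxIncSequencesTo_lt (β := βᵒᵈ) hij hfij

/--
For each entry, we form a pair of labels consisting of the maximum lengths of increasing and
decreasing sequences ending there.
-/
noncomputable def paired (f : α → β) (i : α) : ℕ × ℕ :=
  (maxIncSequencesTo f i, maxDecSequencesTo f i)

/--
By combining the previous two lemmas, we see that since `f` is injective, the pairs of labels
must also be unique.
-/
lemma paired_injective (hf : Injective f) : Injective (paired f) := by
  apply Injective.of_lt_imp_ne
  intro i j hij q
  cases lt_or_gt_of_ne (hf.ne hij.ne)
  case inl h => exact (maxIncSequencesTo_lt hij h).ne (congrArg Prod.fst q)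
  case inr h => exact (maxDecSequencesTo_gt hij h).ne (congrArg Prod.snd q)

/-- **Erdős–Szekeres Theorem**: Given a sequence of more than `r * s` distinct values, there is an
increasing sequence of length longer than `r` or a decreasing sequence of length longer than `s`.

Proof idea:
We label each value in the sequence with two numbers specifying the longest increasing
subsequence ending there, and the longest decreasing subsequence ending there.
We then show the pair of labels must be unique. Now if there is no increasing sequence longer than
`r` and no decreasing sequence longer than `s`, then there are at most `r * s` possible labels,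
which is a contradiction if there are more than `r * s` elements.
-/
theorem erdos_szekeres {r s : ℕ} {f : α → β} (hn : r * s < Fintype.card α) (hf : Injective f) :
    (∃ t : Finset α, r < #t ∧ StrictMonoOn f t) ∨
      ∃ t : Finset α, s < #t ∧ StrictAntiOn f t := by
  classical
  -- It suffices to prove that there is some `i` where one of the max lengths is bigger than
  -- `r` or `s`, as this corresponds to a monotone sequence of the required length.
  rsuffices ⟨i, hi⟩ : ∃ i, r < maxIncSequencesTo f i ∨ s < maxDecSequencesTo f i
  · refine Or.imp ?_ ?_ hi
    on_goal 1 =>
      have : maxIncSequencesTo f i ∈ image card _ := maxIncSequencesTo_mem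
    on_goal 2 =>
      have : maxDecSequencesTo f i ∈ image card _ := maxDecSequencesTo_mem
    all_goals
      intro hi
      obtain ⟨t, ht₁, ht₂⟩ := mem_image.1 this
      refine ⟨t, by rwa [ht₂], ?_⟩
      rw [mem_filter] at ht₁
      exact ht₁.2.2
  -- If such an `i` does not exist, then our pairs of labels lie in a small set, which is a
  -- contradiction since the pairs are unique.
  by_contra! q
  have : Set.MapsTo (paired f) (univ : Finset α) (Icc 1 r ×ˢ Icc 1 s : Finset _) := by
    simp [paired, one_le_maxIncSequencesTo, one_le_maxDecSequencesTo, Set.MapsTo, *]
  refine hn.not_ge ?_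
  simpa using card_le_card_of_injOn (paired f) this (paired_injective hf).injOn

end Pool.Agent.H184R3.ES
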