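import Mathlib

set_option autoImplicit false

/-!
Linear bound for V-shapes in ordered families of disjoint sets of rows cut into blocks.
-/

namespace Pool.Agent.H184R3

open Finset

/-- `Rk V key k c x y`: there are nested intervals `[x,y] = I_0 ⊃ I_1 ⊃ ⋯ ⊃ I_k` (strictly nested),
`I_i` having both end points in the set `V c_i`, with `key c_0 > key c_1 > ⋯ > key c_k`, `c_0 = c`. -/
def Rk {κ : Type*} (V : κ → Finset ℕ) (key : κ → ℕ) : ℕ → κ → ℕ → ℕ → Prop
  | 0, c, x, y => x ∈ V c ∧ y ∈ V c ∧ x < y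
  | (k + 1), c, x, y => x ∈ V c ∧ y ∈ V c ∧ ∃ c' x' y', key c' < key c ∧ x < x' ∧ y' < y ∧
      Rk V key k c' x' y'

variable {κ : Type*} {V : κ → Finset ℕ} {key : κ → ℕ}

theorem Rk.mem {k : ℕ} {c : κ} {x y : ℕ} (h : Rk V key k c x y) : x ∈ V c ∧ y ∈ V c := by
  cases k with
  | zero => exact ⟨h.1, h.2.1⟩
  | succ k => exact ⟨h.1, h.2.1⟩

theorem Rk.lt {k : ℕ} : ∀ {c : κ} {x y : ℕ}, Rk V key k c x y → x < y := by
  induction k with
  | zero => intro c x y h; exact h.2.2
  | succ k ih =>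
    intro c x y h
    obtain ⟨-, -, c', x', y', -, h1, h2, h3⟩ := h
    have := ih h3
    omega

theorem Rk.mono {k : ℕ} {c : κ} {x y x₁ y₁ : ℕ} (h : Rk V key k c x y) (hx : x₁ ≤ x) (hy : y ≤ y₁)
    (hx₁ : x₁ ∈ V c) (hy₁ : y₁ ∈ V c) : Rk V key k c x₁ y₁ := by
  cases k with
  | zero =>
    have := h.lt
    exact ⟨hx₁, hy₁, by omega⟩
  | succ k =>
    obtain ⟨-, -, c', x', y', h0, h1, h2, h3⟩ := h
    exact ⟨hx₁, hy₁, c', x', y', h0, by omega, by omega, h3⟩

/-- Quadruples cut out of a list. -/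
def quads : List ℕ → List (ℕ × ℕ × ℕ × ℕ)
  | a :: b :: c :: d :: rest => (a, b, c, d) :: quads rest
  | _ => []

theorem quads_length : ∀ l : List ℕ, l.length ≤ 4 * (quads l).length + 3
  | [] => by simp [quads]
  | [_] => by simp [quads]
  | [_, _] => by simp [quads]
  | [_, _, _] => by simp [quads]
  | a :: b :: c :: d :: rest => by
    have := quads_length rest
    simp only [quads, List.length_cons]
    omega

theorem mem_quads_mem : ∀ (l : List ℕ) (q : ℕ × ℕ × ℕ × ℕ), q ∈ quads l →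
    q.1 ∈ l ∧ q.2.1 ∈ l ∧ q.2.2.1 ∈ l ∧ q.2.2.2 ∈ l
  | [], q => by simp [quads]
  | [_], q => by simp [quads]
  | [_, _], q => by simp [quads]
  | [_, _, _], q => by simp [quads]
  | a :: b :: c :: d :: rest, q => by
    intro h
    simp only [quads, List.mem_cons] at h
    rcases h with rfl | h
    · simp
    · have := mem_quads_mem rest q h
      simp only [List.mem_cons]
      tauto

theorem quads_rel {R : ℕ → ℕ → Prop} : ∀ (l : List ℕ), l.Pairwise R →
    ∀ q : ℕ × ℕ × ℕ × ℕ, q ∈ quads l → R q.1 q.2.1 ∧ R q.2.1 q.2.2.1 ∧ R q.2.2.1 q.2.2.2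
  | [], _, q => by simp [quads]
  | [_], _, q => by simp [quads]
  | [_, _], _, q => by simp [quads]
  | [_, _, _], _, q => by simp [quads]
  | a :: b :: c :: d :: rest, hp, q => by
    intro h
    simp only [quads, List.mem_cons] at h
    simp only [List.pairwise_cons] at hp
    rcases h with rfl | h
    · refine ⟨hp.1 _ (by simp), hp.2.1 _ (by simp), hp.2.2.1 _ (by simp)⟩
    · exact quads_rel rest hp.2.2.2.2 q h

theorem quads_pairwise {R : ℕ → ℕ → Prop} : ∀ (l : List ℕ), l.Pairwise R →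
    (quads l).Pairwise (fun p q => R p.2.2.2 q.1)
  | [], _ => by simp [quads]
  | [_], _ => by simp [quads]
  | [_, _], _ => by simp [quads]
  | [_, _, _], _ => by simp [quads]
  | a :: b :: c :: d :: rest, hp => by
    simp only [List.pairwise_cons] at hp
    simp only [quads, List.pairwise_cons]
    refine ⟨fun q hq => hp.2.2.2.1 _ (mem_quads_mem rest q hq).1, quads_pairwise rest hp.2.2.2.2⟩

/-- The main counting lemma. -/
theorem card_bad_le [DecidableEq κ] (hdis : ∀ c c', c ≠ c' → Disjoint (V c) (V c'))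
    (hkey : ∀ c c', key c = key c' → (V c).Nonempty → (V c').Nonempty → c = c')
    (β : ℕ → ℕ) (hβ : Monotone β) (m : ℕ) (hm : ∀ c, ∀ x ∈ V c, β x < m)
    (hinj : ∀ c, ∀ x ∈ V c, ∀ y ∈ V c, β x = β y → x = y)
    (k : ℕ) (S : Finset (κ × ℕ × ℕ × ℕ × ℕ))
    (h1 : ∀ q ∈ S, Rk V key k q.1 q.2.1 q.2.2.1 ∧ Rk V key k q.1 q.2.2.1 q.2.2.2.1 ∧
      Rk V key k q.1 q.2.2.2.1 q.2.2.2.2)
    (h2 : ∀ q ∈ S, ¬ Rk V key (k + 1) q.1 q.2.1 q.2.2.2.2)
    (h3 : ∀ q ∈ S, ∀ q' ∈ S, q.1 = q'.1 → q ≠ q' →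
      q.2.2.2.2 < q'.2.1 ∨ q'.2.2.2.2 < q.2.1) :
    S.card ≤ m := by
  classical
  rcases S.eq_empty_or_nonempty with hS0 | ⟨q0, -⟩
  · simp [hS0]
  have : Nonempty (κ × ℕ × ℕ × ℕ × ℕ) := ⟨q0⟩
  -- the interior boundary points: `e q false`, `e q true`
  let e : (κ × ℕ × ℕ × ℕ × ℕ) → Bool → ℕ := fun q b => if b then q.2.2.2.1 else q.2.2.1
  let lo : (κ × ℕ × ℕ × ℕ × ℕ) → Bool → ℕ := fun q b => if b then q.2.2.1 else q.2.1
  let hi : (κ × ℕ × ℕ × ℕ × ℕ) → Bool → ℕ := fun q b => if b then q.2.2.2.2 else q.2.2.2.1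
  have hlo : ∀ q ∈ S, ∀ b, lo q b < e q b := by
    intro q hq b
    obtain ⟨a1, a2, a3⟩ := h1 q hq
    have := a1.lt
    have := a2.lt
    have := a3.lt
    cases b <;> simp [lo, e] <;> omega
  have hhi : ∀ q ∈ S, ∀ b, e q b < hi q b := by
    intro q hq b
    obtain ⟨a1, a2, a3⟩ := h1 q hq
    have := a1.lt
    have := a2.lt
    have := a3.lt
    cases b <;> simp [hi, e] <;> omega
  have hlo0 : ∀ q ∈ S, ∀ b, q.2.1 ≤ lo q b := by
    intro q hq b
    obtain ⟨a1, a2, a3⟩ := h1 q hq
    have := a1.lt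
    cases b <;> simp [lo] <;> omega
  have hhi0 : ∀ q ∈ S, ∀ b, hi q b ≤ q.2.2.2.2 := by
    intro q hq b
    obtain ⟨a1, a2, a3⟩ := h1 q hq
    have := a3.lt
    cases b <;> simp [hi] <;> omega
  have hrlo : ∀ q ∈ S, ∀ b, Rk V key k q.1 (lo q b) (e q b) := by
    intro q hq b
    obtain ⟨a1, a2, a3⟩ := h1 q hq
    cases b <;> simpa [lo, e]
  have hrhi : ∀ q ∈ S, ∀ b, Rk V key k q.1 (e q b) (hi q b) := by
    intro q hq b
    obtain ⟨a1, a2, a3⟩ := h1 q hq
    cases b <;> simpa [hi, e]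
  have hmem0 : ∀ q ∈ S, q.2.1 ∈ V q.1 := fun q hq => (h1 q hq).1.mem.1
  have hmem3 : ∀ q ∈ S, q.2.2.2.2 ∈ V q.1 := fun q hq => (h1 q hq).2.2.mem.2
  have hne : ∀ c c' x y, c ≠ c' → x ∈ V c → y ∈ V c' → x ≠ y := by
    intro c c' x y hc hx hy hxy
    subst hxy
    exact Finset.disjoint_left.1 (hdis c c' hc) hx hy
  -- covering relation
  let Cov : (κ × ℕ × ℕ × ℕ × ℕ) × Bool → (κ × ℕ × ℕ × ℕ × ℕ) → Prop := fun p t =>
    key p.1.1 < key t.1 ∧ t.2.1 < e p.1 p.2 ∧ e p.1 p.2 < t.2.2.2.2
  -- a covering interval sits strictly between the neighbours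
  have hin : ∀ p ∈ S, ∀ b, ∀ t ∈ S, Cov (p, b) t → lo p b < t.2.1 ∧ t.2.2.2.2 < hi p b := by
    intro p hp b t ht hc
    obtain ⟨hk, hc1, hc2⟩ := hc
    have hcne : p.1 ≠ t.1 := by
      intro h
      rw [h] at hk
      exact lt_irrefl _ hk
    constructor
    · by_contra hcon
      have h4 : t.2.1 < lo p b := by
        have := hne _ _ _ _ hcne (hrlo p hp b).mem.1 (hmem0 t ht)
        omega
      exact h2 t ht ⟨hmem0 t ht, hmem3 t ht, p.1, lo p b, e p b, hk, h4, hc2, hrlo p hp b⟩
    · by_contra hcon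
      have h4 : hi p b < t.2.2.2.2 := by
        have := hne _ _ _ _ hcne (hrhi p hp b).mem.2 (hmem3 t ht)
        omega
      exact h2 t ht ⟨hmem0 t ht, hmem3 t ht, p.1, e p b, hi p b, hk, hc1, h4, hrhi p hp b⟩
  let E : Finset ((κ × ℕ × ℕ × ℕ × ℕ) × Bool) := S ×ˢ (Finset.univ : Finset Bool)
  have hE : E.card = 2 * S.card := by
    simp only [E, Finset.card_product, Finset.card_univ, Fintype.card_bool]
    ring
  let E1 := E.filter (fun p => ∃ t ∈ S, Cov p t)
  let E2 := E.filter (fun p => ¬ ∃ t ∈ S, Cov p t)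
  have hsplit : E1.card + E2.card = E.card := Finset.card_filter_add_card_filter_not _
  -- the covered ones inject into `S`
  have hE1 : E1.card ≤ S.card := by
    -- choose a covering interval of maximal length
    have hch : ∀ p ∈ E1, ∃ t ∈ S, Cov p t ∧ ∀ t' ∈ S, Cov p t' →
        t'.2.2.2.2 - t'.2.1 ≤ t.2.2.2.2 - t.2.1 := by
      intro p hp
      have hp' := (Finset.mem_filter.1 hp).2
      obtain ⟨t0, ht0, hc0⟩ := hp'
      obtain ⟨t, ht, hmax⟩ := Finset.exists_max_image (S.filter (fun t => Cov p t))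
        (fun t => t.2.2.2.2 - t.2.1) ⟨t0, Finset.mem_filter.2 ⟨ht0, hc0⟩⟩
      rw [Finset.mem_filter] at ht
      exact ⟨t, ht.1, ht.2, fun t' ht' hc' => hmax t' (Finset.mem_filter.2 ⟨ht', hc'⟩)⟩
    choose! φ hφS hφc hφm using hch
    have key1 : ∀ p ∈ E1, ∀ p' ∈ E1, φ p = φ p' → ¬ key p.1.1 < key p'.1.1 := by
      intro p hp p' hp' hpp hlt
      have hpE := Finset.mem_filter.1 hp
      have hpE' := Finset.mem_filter.1 hp'
      have hpS : p.1 ∈ S := (Finset.mem_product.1 hpE.1).1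
      have hpS' : p'.1 ∈ S := (Finset.mem_product.1 hpE'.1).1
      have hc := hφc p hp
      have hc' := hφc p' hp'
      have ht := hφS p hp
      have h5 := hin p'.1 hpS' p'.2 (φ p') (hφS p' hp') hc'
      have h6 : Cov p p'.1 := by
        refine ⟨hlt, ?_, ?_⟩
        · have := hlo0 p'.1 hpS' p'.2
          have := hc.2.1
          rw [← hpp] at h5
          omega
        · have := hhi0 p'.1 hpS' p'.2
          have := hc.2.2
          rw [← hpp] at h5
          omega
      have h7 := hφm p hp p'.1 hpS' h6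
      have h8 := hlo0 p'.1 hpS' p'.2
      have h9 := hhi0 p'.1 hpS' p'.2
      rw [← hpp] at h5
      have h10 := hc.2.1
      have h11 := hc.2.2
      omega
    apply Finset.card_le_card_of_injOn φ (fun p hp => hφS p hp)
    intro p hp p' hp' hpp
    have hp : p ∈ E1 := hp
    have hp' : p' ∈ E1 := hp'
    have hk1 := key1 p hp p' hp' hpp
    have hk2 := key1 p' hp' p hp hpp.symm
    have hpE := Finset.mem_filter.1 hp
    have hpE' := Finset.mem_filter.1 hp'
    have hpS : p.1 ∈ S := (Finset.mem_product.1 hpE.1).1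
    have hpS' : p'.1 ∈ S := (Finset.mem_product.1 hpE'.1).1
    have hcol : p.1.1 = p'.1.1 :=
      hkey _ _ (by omega) ⟨_, hmem0 _ hpS⟩ ⟨_, hmem0 _ hpS'⟩
    have h5 := hin p.1 hpS p.2 (φ p) (hφS p hp) (hφc p hp)
    have h5' := hin p'.1 hpS' p'.2 (φ p') (hφS p' hp') (hφc p' hp')
    have h6 := (hφc p hp).2
    have h6' := (hφc p' hp').2
    rw [← hpp] at h5' h6'
    by_cases hpq : p.1 = p'.1
    · apply Prod.ext hpq
      by_contra hb
      obtain ⟨q, b⟩ := p
      obtain ⟨q', b'⟩ := p'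
      simp only at hpq
      subst hpq
      simp only at hb h5 h5' h6 h6'
      cases b <;> cases b' <;> simp [lo, hi, e] at hb h5 h5' h6 h6' <;> omega
    · exfalso
      have h7 := h3 p.1 hpS p'.1 hpS' hcol hpq
      have h8 := hlo0 p'.1 hpS' p'.2
      have h9 := hhi0 p'.1 hpS' p'.2
      have h8' := hlo0 p.1 hpS p.2
      have h9' := hhi0 p.1 hpS p.2
      omega
  -- the uncovered ones inject into the blocks
  have hE2 : E2.card ≤ m := by
    have : E2.card ≤ (Finset.range m).card := by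
      have key2 : ∀ p ∈ E2, ∀ p' ∈ E2, β (e p.1 p.2) = β (e p'.1 p'.2) →
          ¬ key p.1.1 < key p'.1.1 := by
        intro p hp p' hp' hpp hlt
        have hpE := Finset.mem_filter.1 hp
        have hpE' := Finset.mem_filter.1 hp'
        have hpS : p.1 ∈ S := (Finset.mem_product.1 hpE.1).1
        have hpS' : p'.1 ∈ S := (Finset.mem_product.1 hpE'.1).1
        apply hpE.2
        refine ⟨p'.1, hpS', hlt, ?_, ?_⟩
        · have h5 := hrlo p'.1 hpS' p'.2
          have h6 := h5.lt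
          have h7 : β (lo p'.1 p'.2) ≠ β (e p'.1 p'.2) := by
            intro h
            have := hinj _ _ h5.mem.1 _ h5.mem.2 h
            omega
          have h8 : β (lo p'.1 p'.2) ≤ β (e p'.1 p'.2) := hβ h6.le
          have h9 : lo p'.1 p'.2 < e p.1 p.2 := by
            by_contra hcon
            have := hβ (not_lt.1 hcon)
            omega
          have := hlo0 p'.1 hpS' p'.2
          omega
        · have h5 := hrhi p'.1 hpS' p'.2
          have h6 := h5.lt
          have h7 : β (hi p'.1 p'.2) ≠ β (e p'.1 p'.2) := by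
            intro h
            have := hinj _ _ h5.mem.2 _ h5.mem.1 h
            omega
          have h8 : β (e p'.1 p'.2) ≤ β (hi p'.1 p'.2) := hβ h6.le
          have h9 : e p.1 p.2 < hi p'.1 p'.2 := by
            by_contra hcon
            have := hβ (not_lt.1 hcon)
            omega
          have := hhi0 p'.1 hpS' p'.2
          omega
      apply Finset.card_le_card_of_injOn (fun p => β (e p.1 p.2))
      · intro p hp
        have hpE := Finset.mem_filter.1 hp
        have hpS : p.1 ∈ S := (Finset.mem_product.1 hpE.1).1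
        simp only [Finset.coe_range, Set.mem_Iio]
        exact hm _ _ (hrlo p.1 hpS p.2).mem.2
      · intro p hp p' hp' hpp
        have hp : p ∈ E2 := hp
        have hp' : p' ∈ E2 := hp'
        simp only at hpp
        have hk1 := key2 p hp p' hp' hpp
        have hk2 := key2 p' hp' p hp hpp.symm
        have hpE := Finset.mem_filter.1 hp
        have hpE' := Finset.mem_filter.1 hp'
        have hpS : p.1 ∈ S := (Finset.mem_product.1 hpE.1).1
        have hpS' : p'.1 ∈ S := (Finset.mem_product.1 hpE'.1).1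
        have hcol : p.1.1 = p'.1.1 :=
          hkey _ _ (by omega) ⟨_, hmem0 _ hpS⟩ ⟨_, hmem0 _ hpS'⟩
        have hee : e p.1 p.2 = e p'.1 p'.2 := by
          apply hinj p.1.1 _ (hrlo p.1 hpS p.2).mem.2 _ _ hpp
          rw [hcol]
          exact (hrlo p'.1 hpS' p'.2).mem.2
        by_cases hpq : p.1 = p'.1
        · apply Prod.ext hpq
          by_contra hb
          obtain ⟨q, b⟩ := p
          obtain ⟨q', b'⟩ := p'
          simp only at hpq
          subst hpq
          have hq1 := (h1 q hpS).2.1.lt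
          simp only at hb hee
          cases b <;> cases b' <;> simp [e] at hb hee <;> omega
        · exfalso
          have h7 := h3 p.1 hpS p'.1 hpS' hcol hpq
          have h8 := hlo0 p'.1 hpS' p'.2
          have h9 := hhi0 p'.1 hpS' p'.2
          have h8' := hlo0 p.1 hpS p.2
          have h9' := hhi0 p.1 hpS p.2
          have h10 := hlo p.1 hpS p.2
          have h11 := hhi p.1 hpS p.2
          have h12 := hlo p'.1 hpS' p'.2
          have h13 := hhi p'.1 hpS' p'.2
          omega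
    simpa using this
  omega

/-- One step: chains of rank `k` give chains of rank `k + 1`, with bounded loss. -/
theorem step [DecidableEq κ] (hdis : ∀ c c', c ≠ c' → Disjoint (V c) (V c'))
    (hkey : ∀ c c', key c = key c' → (V c).Nonempty → (V c').Nonempty → c = c')
    (β : ℕ → ℕ) (hβ : Monotone β) (m : ℕ) (hm : ∀ c, ∀ x ∈ V c, β x < m)
    (hinj : ∀ c, ∀ x ∈ V c, ∀ y ∈ V c, β x = β y → x = y)
    (J : Finset κ) (k : ℕ) (l : κ → List ℕ)
    (hl : ∀ c ∈ J, (l c).Pairwise (Rk V key k c) ∧ ∀ x ∈ l c, x ∈ V c) :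
    ∃ l' : κ → List ℕ, (∀ c ∈ J, (l' c).Pairwise (Rk V key (k + 1) c) ∧ ∀ x ∈ l' c, x ∈ V c) ∧
      ∑ c ∈ J, (l c).length ≤ 4 * ∑ c ∈ J, (l' c).length + 4 * m + 3 * J.card := by
  classical
  let good : κ → List (ℕ × ℕ × ℕ × ℕ) := fun c =>
    (quads (l c)).filter (fun q => decide (Rk V key (k + 1) c q.1 q.2.2.2))
  let bad : κ → List (ℕ × ℕ × ℕ × ℕ) := fun c =>
    (quads (l c)).filter (fun q => !decide (Rk V key (k + 1) c q.1 q.2.2.2))
  have hgb : ∀ c, (good c).length + (bad c).length = (quads (l c)).length := by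
    intro c
    have := List.length_eq_length_filter_add (l := quads (l c))
      (fun q => decide (Rk V key (k + 1) c q.1 q.2.2.2))
    simp only [good, bad]
    omega
  have hqlt : ∀ c ∈ J, ∀ q ∈ quads (l c), q.1 < q.2.2.2 := by
    intro c hc q hq
    have := quads_rel (l c) (hl c hc).1 q hq
    have h1 := this.1.lt
    have h2 := this.2.1.lt
    have h3 := this.2.2.lt
    omega
  have hqp : ∀ c ∈ J, (quads (l c)).Pairwise (fun p q => p.2.2.2 < q.1) := fun c hc =>
    (quads_pairwise (l c) (hl c hc).1).imp (fun h => h.lt)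
  have hnd : ∀ c ∈ J, (bad c).Nodup := by
    intro c hc
    apply List.Nodup.filter
    have h1 : (quads (l c)).Pairwise (fun p q => p.2.2.2 < q.1) := hqp c hc
    rw [List.Nodup]
    rw [List.pairwise_iff_forall_sublist] at h1 ⊢
    intro a b hab
    have h2 := h1 hab
    have ha : a ∈ quads (l c) := hab.subset (by simp)
    have h3 := hqlt c hc a ha
    intro h
    subst h
    omega
  refine ⟨fun c => (good c).map (fun q => q.1), ?_, ?_⟩
  · intro c hc
    constructor
    · rw [List.pairwise_map]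
      have h1 : (good c).Pairwise (fun p q => p.2.2.2 < q.1) := (hqp c hc).sublist
        List.filter_sublist
      refine h1.imp_of_mem ?_
      intro a b ha hb hab
      have ha' := List.mem_filter.1 ha
      have hb' := List.mem_filter.1 hb
      have h2 : Rk V key (k + 1) c a.1 a.2.2.2 := by simpa using ha'.2
      exact h2.mono le_rfl hab.le ((hl c hc).2 _ (mem_quads_mem _ _ ha'.1).1)
        ((hl c hc).2 _ (mem_quads_mem _ _ hb'.1).1)
    · intro x hx
      obtain ⟨q, hq, rfl⟩ := List.mem_map.1 hx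
      exact (hl c hc).2 _ (mem_quads_mem _ _ (List.mem_filter.1 hq).1).1
  · let S : Finset (κ × ℕ × ℕ × ℕ × ℕ) := J.biUnion (fun c => (bad c).toFinset.image (Prod.mk c))
    have hSc : S.card = ∑ c ∈ J, (bad c).length := by
      rw [Finset.card_biUnion]
      · apply Finset.sum_congr rfl
        intro c hc
        rw [Finset.card_image_of_injective _ (Prod.mk_right_injective c),
          List.toFinset_card_of_nodup (hnd c hc)]
      · intro c _ c' _ hcc
        rw [Function.onFun, Finset.disjoint_left]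
        intro q hq hq'
        obtain ⟨a, -, rfl⟩ := Finset.mem_image.1 hq
        obtain ⟨b, -, hb⟩ := Finset.mem_image.1 hq'
        exact hcc (congrArg Prod.fst hb).symm
    have hSmem : ∀ q ∈ S, q.1 ∈ J ∧ q.2 ∈ quads (l q.1) ∧
        ¬ Rk V key (k + 1) q.1 q.2.1 q.2.2.2.2 := by
      intro q hq
      obtain ⟨c, hc, hq⟩ := Finset.mem_biUnion.1 hq
      obtain ⟨a, ha, rfl⟩ := Finset.mem_image.1 hq
      have ha := List.mem_filter.1 (List.mem_toFinset.1 ha)
      exact ⟨hc, ha.1, by simpa using ha.2⟩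
    have hS : S.card ≤ m := by
      apply card_bad_le hdis hkey β hβ m hm hinj k S
      · intro q hq
        obtain ⟨h1, h2, h3⟩ := hSmem q hq
        exact quads_rel (l q.1) (hl q.1 h1).1 q.2 h2
      · intro q hq
        exact (hSmem q hq).2.2
      · intro q hq q' hq' hqq hne
        obtain ⟨h1, h2, h3⟩ := hSmem q hq
        obtain ⟨h1', h2', h3'⟩ := hSmem q' hq'
        rw [← hqq] at h2'
        have hne2 : q.2 ≠ q'.2 := fun h => hne (Prod.ext hqq h)
        have hsym : ∀ a ∈ quads (l q.1), ∀ b ∈ quads (l q.1), a ≠ b →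
            (a.2.2.2 < b.1 ∨ b.2.2.2 < a.1) := by
          have : Std.Symm (fun a b : ℕ × ℕ × ℕ × ℕ => (a.2.2.2 < b.1 ∨ b.2.2.2 < a.1)) :=
            ⟨fun _ _ h => h.symm⟩
          have h4 : (quads (l q.1)).Pairwise
              (fun a b : ℕ × ℕ × ℕ × ℕ => (a.2.2.2 < b.1 ∨ b.2.2.2 < a.1)) :=
            (hqp q.1 h1).imp (fun h => Or.inl h)
          intro a ha b hb hab
          exact h4.forall ha hb hab
        exact hsym q.2 h2 q'.2 h2' hne2
    calc ∑ c ∈ J, (l c).length ≤ ∑ c ∈ J, (4 * ((good c).length + (bad c).length) + 3) := by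
          apply Finset.sum_le_sum
          intro c _
          rw [hgb]
          exact quads_length (l c)
      _ = 4 * ∑ c ∈ J, (good c).length + 4 * ∑ c ∈ J, (bad c).length + 3 * J.card := by
          rw [Finset.sum_add_distrib, ← Finset.mul_sum, Finset.sum_add_distrib,
            Finset.sum_const, smul_eq_mul]
          ring
      _ ≤ _ := by
          rw [← hSc]
          simp only [List.length_map]
          omega

/-- Linear bound for V-shapes. -/
theorem exists_Rk [DecidableEq κ] (hdis : ∀ c c', c ≠ c' → Disjoint (V c) (V c'))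
    (hkey : ∀ c c', key c = key c' → (V c).Nonempty → (V c').Nonempty → c = c')
    (β : ℕ → ℕ) (hβ : Monotone β) (m : ℕ) (hm : ∀ c, ∀ x ∈ V c, β x < m)
    (hinj : ∀ c, ∀ x ∈ V c, ∀ y ∈ V c, β x = β y → x = y)
    (J : Finset κ) (k : ℕ) (hW : 2 * 4 ^ (k + 1) * (J.card + m) < ∑ c ∈ J, (V c).card) :
    ∃ c ∈ J, ∃ x y, Rk V key k c x y := by
  have claim : ∀ k : ℕ, ∃ l : κ → List ℕ,
      (∀ c ∈ J, (l c).Pairwise (Rk V key k c) ∧ ∀ x ∈ l c, x ∈ V c) ∧
      ∑ c ∈ J, (V c).card ≤ 4 ^ k * (∑ c ∈ J, (l c).length) + 4 ^ (k + 1) * (J.card + m) := by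
    intro k
    induction k with
    | zero =>
      refine ⟨fun c => (V c).sort, ?_, ?_⟩
      · intro c _
        constructor
        · have h1 : ((V c).sort).Pairwise (· < ·) := (Finset.sortedLT_sort (V c)).pairwise
          refine h1.imp_of_mem ?_
          intro a b ha hb hab
          exact ⟨(Finset.mem_sort _).1 ha, (Finset.mem_sort _).1 hb, hab⟩
        · intro x hx
          exact (Finset.mem_sort _).1 hx
      · simp
    | succ k ih =>
      obtain ⟨l, hl, hle⟩ := ih
      obtain ⟨l', hl', hle'⟩ := step hdis hkey β hβ m hm hinj J k l hl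
      refine ⟨l', hl', hle.trans ?_⟩
      calc 4 ^ k * (∑ c ∈ J, (l c).length) + 4 ^ (k + 1) * (J.card + m)
          ≤ 4 ^ k * (4 * ∑ c ∈ J, (l' c).length + 4 * m + 3 * J.card) +
            4 ^ (k + 1) * (J.card + m) := by gcongr
        _ ≤ 4 ^ k * (4 * ∑ c ∈ J, (l' c).length + 4 * m + 4 * J.card) +
            4 ^ (k + 1) * (J.card + m) := by gcongr; omega
        _ = 4 ^ (k + 1) * (∑ c ∈ J, (l' c).length) + 2 * (4 ^ (k + 1) * (J.card + m)) := by ring
        _ ≤ 4 ^ (k + 1) * (∑ c ∈ J, (l' c).length) + 4 * (4 ^ (k + 1) * (J.card + m)) := by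
            gcongr; omega
        _ = _ := by ring
  by_contra hcon
  push Not at hcon
  obtain ⟨l, hl, hle⟩ := claim k
  have h1 : ∀ c ∈ J, (l c).length ≤ 1 := by
    intro c hc
    have h2 := (hl c hc).1
    match hlc : l c with
    | [] => simp
    | [_] => simp
    | a :: b :: rest =>
      rw [hlc] at h2
      simp only [List.pairwise_cons] at h2
      exact absurd (h2.1 b (by simp)) (hcon c hc a b)
  have h2 : ∑ c ∈ J, (l c).length ≤ J.card := by
    calc _ ≤ ∑ c ∈ J, 1 := Finset.sum_le_sum h1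
      _ = _ := by simp
  have h3 : 4 ^ k * (∑ c ∈ J, (l c).length) ≤ 4 ^ (k + 1) * (J.card + m) := by
    calc _ ≤ 4 ^ (k + 1) * (∑ c ∈ J, (l c).length) := by gcongr <;> omega
      _ ≤ _ := by gcongr; omega
  have h4 : ∑ c ∈ J, (V c).card ≤ 2 * 4 ^ (k + 1) * (J.card + m) := by
    calc _ ≤ _ := hle
      _ ≤ 4 ^ (k + 1) * (J.card + m) + 4 ^ (k + 1) * (J.card + m) := by gcongr
      _ = _ := by ring
  omega

end Pool.Agent.H184R3
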