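import Mathlib
import Pool.Agent.H184R3.VShape
import Pool.Agent.H184R3.BoxLemma
import Pool.Agent.H184R3.ES

set_option autoImplicit false

namespace Pool.Agent.H184R3

open Finset

/-- Heights of the entries of an N-shaped (`t = true`) or reversed N-shaped (`t = false`) grid with
`N` columns and three levels. -/
def wt (N : ℕ) (t : Bool) (l : Fin 3) (i : ℕ) : ℕ :=
  if t then (if l = 0 then i else if l = 1 then 2 * N - i else 2 * N + 1 + i)
  else (if l = 0 then N - i else if l = 1 then N + 1 + i else 3 * N + 1 - i)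

/-- The family `P` of functions on `Fin n` contains, at some `N` positions, all the patterns given by
choosing at each of them one of the three entries of an N-shaped grid. -/
def HasShape {n : ℕ} {α : Type*} [LT α] (N : ℕ) (P : Set (Fin n → α)) : Prop :=
  ∃ t : Bool, ∃ p : Fin N → Fin n, StrictMono p ∧ ∀ c : Fin N → Fin 3, ∃ g ∈ P,
    ∀ i j : Fin N, g (p i) < g (p j) ↔ wt N t (c i) i < wt N t (c j) j

theorem extract {κ : Type*} {V : κ → Finset ℕ} {key : κ → ℕ} (k : ℕ) :
    ∀ (c : κ) (x y : ℕ), Rk V key k c x y → ∃ a : ℕ → κ, ∃ X Y : ℕ → ℕ,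
      a k = c ∧ X k = x ∧ Y k = y ∧ (∀ i ≤ k, X i ∈ V (a i) ∧ Y i ∈ V (a i) ∧ X i < Y i) ∧
      ∀ i j, i < j → j ≤ k → key (a i) < key (a j) ∧ X j < X i ∧ Y i < Y j := by
  induction k with
  | zero =>
    intro c x y h
    refine ⟨fun _ => c, fun _ => x, fun _ => y, rfl, rfl, rfl, fun i _ => h, ?_⟩
    intro i j hij hj
    omega
  | succ k ih =>
    intro c x y h
    obtain ⟨hx, hy, c', x', y', hk, hxx, hyy, h'⟩ := h
    obtain ⟨a, X, Y, ha, hX, hY, hmem, hord⟩ := ih c' x' y' h'
    refine ⟨fun i => if i = k + 1 then c else a i, fun i => if i = k + 1 then x else X i,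
      fun i => if i = k + 1 then y else Y i, by simp, by simp, by simp, ?_, ?_⟩
    · intro i hi
      by_cases hik : i = k + 1
      · have := h'.lt
        simp only [hik, if_true]
        exact ⟨hx, hy, by omega⟩
      · simp only [hik, if_false]
        exact hmem i (by omega)
    · intro i j hij hj
      have hik : i ≠ k + 1 := by omega
      by_cases hjk : j = k + 1
      · simp only [hik, if_false, hjk, if_true]
        by_cases hik' : i = k
        · subst hik'
          rw [ha, hX, hY]
          exact ⟨hk, hxx, hyy⟩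
        · have := hord i k (by omega) le_rfl
          rw [ha, hX, hY] at this
          omega
      · simp only [hik, if_false, hjk]
        exact hord i j hij (by omega)

/-- An N-shaped configuration inside a box gives `HasShape`. -/
theorem hasShape_of_levels {n s : ℕ} (N : ℕ) (P : Finset (Fin n → Fin n))
    (R : Fin n → Finset (Fin n)) (hR : IsBox s P R) (k : ℕ) (hk : N * N ≤ k)
    (a : ℕ → Fin n) (F X Y : ℕ → ℕ)
    (hF : ∀ i ≤ k, ∃ v ∈ R (a i), (v : ℕ) = F i)
    (hX : ∀ i ≤ k, ∃ v ∈ R (a i), (v : ℕ) = X i)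
    (hY : ∀ i ≤ k, ∃ v ∈ R (a i), (v : ℕ) = Y i)
    (hinj : ∀ i j, i < j → j ≤ k → a i ≠ a j)
    (hFm : ∀ i j, i < j → j ≤ k → F i < F j) (hXm : ∀ i j, i < j → j ≤ k → X j < X i)
    (hYm : ∀ i j, i < j → j ≤ k → Y i < Y j)
    (hFX : ∀ i j, i ≤ k → j ≤ k → F i < X j) (hXY : ∀ i j, i ≤ k → j ≤ k → X i < Y j) :
    HasShape N (P : Set (Fin n → Fin n)) := by
  classical
  -- the key part: a choice of `N` indices with monotone positions
  have main : ∀ (t : Bool) (e : Fin N → ℕ), (∀ i, e i ≤ k) →
      (∀ i j, i < j → if t then e i < e j else e j < e i) →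
      StrictMono (fun i => a (e i)) → HasShape N (P : Set (Fin n → Fin n)) := by
    intro t e hek he hp
    refine ⟨t, fun i => a (e i), hp, ?_⟩
    intro c
    let val : Fin 3 → ℕ → ℕ := fun l i => if l = 0 then F i else if l = 1 then X i else Y i
    have hval : ∀ i : Fin N, ∃ v ∈ R (a (e i)), (v : ℕ) = val (c i) (e i) := by
      intro i
      simp only [val]
      split_ifs
      · exact hF _ (hek i)
      · exact hX _ (hek i)
      · exact hY _ (hek i)
    choose v hvR hv using hval
    let g : Fin n → Fin n := fun j => if h : ∃ i, a (e i) = j then v h.choose else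
      if h' : (R j).Nonempty then h'.choose else j
    have hg1 : ∀ i, g (a (e i)) = v i := by
      intro i
      have h : ∃ i', a (e i') = a (e i) := ⟨i, rfl⟩
      have h2 : h.choose = i := hp.injective h.choose_spec
      simp only [g, h, dif_pos]
      rw [h2]
    have hg2 : ∀ j, R j ≠ ∅ → g j ∈ R j := by
      intro j hj
      by_cases h : ∃ i, a (e i) = j
      · obtain ⟨i, rfl⟩ := h
        rw [hg1]
        exact hvR i
      · have h' : (R j).Nonempty := Finset.nonempty_iff_ne_empty.2 hj
        simp only [g, h, dif_neg, not_false_iff, h', dif_pos]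
        exact h'.choose_spec
    obtain ⟨f, hf, hfg⟩ := hR.2 g hg2
    refine ⟨f, hf, ?_⟩
    have hfi : ∀ i, ((f (a (e i)) : Fin n) : ℕ) = val (c i) (e i) := by
      intro i
      rw [hfg _ (Finset.ne_empty_of_mem (hvR i)), hg1, hv]
    intro i j
    rw [Fin.lt_def, hfi, hfi]
    have hi := i.2
    have hj := j.2
    have hcomp : ∀ i j : Fin N, i < j → ∀ l l' : Fin 3,
        (val l (e i) < val l' (e j) ↔ wt N t l i < wt N t l' j) ∧
        (val l' (e j) < val l (e i) ↔ wt N t l' j < wt N t l i) := by
      intro i j hij l l'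
      have hi := i.2
      have hj := j.2
      have hij' : (i : ℕ) < j := hij
      have h1 := hFX (e i) (e j) (hek i) (hek j)
      have h2 := hFX (e j) (e i) (hek j) (hek i)
      have h3 := hXY (e i) (e j) (hek i) (hek j)
      have h4 := hXY (e j) (e i) (hek j) (hek i)
      have h5 := hFX (e i) (e i) (hek i) (hek i)
      have h6 := hXY (e i) (e i) (hek i) (hek i)
      have h7 := hFX (e j) (e j) (hek j) (hek j)
      have h8 := hXY (e j) (e j) (hek j) (hek j)
      have he' := he i j hij
      cases t with
      | true =>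
        simp only [if_true] at he'
        have h9 := hFm _ _ he' (hek j)
        have h10 := hXm _ _ he' (hek j)
        have h11 := hYm _ _ he' (hek j)
        fin_cases l <;> fin_cases l' <;> simp [val, wt] <;> omega
      | false =>
        simp only [Bool.false_eq_true, if_false] at he'
        have h9 := hFm _ _ he' (hek i)
        have h10 := hXm _ _ he' (hek i)
        have h11 := hYm _ _ he' (hek i)
        fin_cases l <;> fin_cases l' <;> simp [val, wt] <;> omega
    rcases lt_trichotomy i j with h | h | h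
    · exact (hcomp i j h (c i) (c j)).1
    · subst h
      simp
    · exact (hcomp j i h (c j) (c i)).2
  -- Erdos and Szekeres
  have hN : (N - 1) * (N - 1) < Fintype.card (Fin (k + 1)) := by
    rw [Fintype.card_fin]
    have : (N - 1) * (N - 1) ≤ N * N := Nat.mul_le_mul (by omega) (by omega)
    omega
  have hinj' : Function.Injective (fun i : Fin (k + 1) => a i) := by
    intro i j hij
    by_contra hne
    rcases lt_or_gt_of_ne (fun h : (i : ℕ) = j => hne (Fin.ext h)) with h | h
    · exact hinj i j h (by omega) hij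
    · exact hinj j i h (by omega) hij.symm
  rcases N.eq_zero_or_pos with rfl | hNpos
  · refine main true (fun i => 0) (fun i => i.elim0) (fun i => i.elim0) (fun i => i.elim0)
  rcases ES.erdos_szekeres hN hinj' with ⟨t, ht, hm⟩ | ⟨t, ht, hm⟩
  · have hle : N ≤ t.card := by omega
    let e := t.orderEmbOfCardLe hle
    refine main true (fun i => (e i : ℕ)) (fun i => by have := (e i).2; omega) ?_ ?_
    · intro i j hij
      simp only [if_true]
      exact e.strictMono hij
    · intro i j hij
      exact hm (Finset.orderEmbOfCardLe_mem t hle i) (Finset.orderEmbOfCardLe_mem t hle j)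
        (e.strictMono hij)
  · have hle : N ≤ t.card := by omega
    let e := t.orderEmbOfCardLe hle
    refine main false (fun i => (e (Fin.rev i) : ℕ))
      (fun i => by have := (e (Fin.rev i)).2; omega) ?_ ?_
    · intro i j hij
      simp only [Bool.false_eq_true, if_false]
      exact e.strictMono (Fin.rev_lt_rev.2 hij)
    · intro i j hij
      exact hm (Finset.orderEmbOfCardLe_mem t hle (Fin.rev j))
        (Finset.orderEmbOfCardLe_mem t hle (Fin.rev i)) (e.strictMono (Fin.rev_lt_rev.2 hij))

theorem box_disjoint {n s : ℕ} (P : Finset (Fin n → Fin n))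
    (hP : ∀ f ∈ P, Function.Injective f) (R : Fin n → Finset (Fin n)) (hR : IsBox s P R) :
    ∀ c c', c ≠ c' → Disjoint (R c) (R c') := by
  classical
  intro c c' hcc
  rw [Finset.disjoint_left]
  intro v hv hv'
  let g : Fin n → Fin n := fun j => if h : j = c ∨ j = c' then v else
    if h' : (R j).Nonempty then h'.choose else j
  have hg : ∀ j, R j ≠ ∅ → g j ∈ R j := by
    intro j hj
    by_cases h : j = c ∨ j = c'
    · simp only [g, h, dif_pos]
      rcases h with rfl | rfl <;> assumption
    · have h' : (R j).Nonempty := Finset.nonempty_iff_ne_empty.2 hj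
      simp only [g, h, dif_neg, not_false_iff, h', dif_pos]
      exact h'.choose_spec
  obtain ⟨f, hf, hfg⟩ := hR.2 g hg
  have h1 := hfg c (Finset.ne_empty_of_mem hv)
  have h2 := hfg c' (Finset.ne_empty_of_mem hv')
  apply hcc
  apply hP f hf
  rw [h1, h2]
  simp [g]

/-- In a family without N-shape every box is light after cutting the values into intervals of
length `s`. -/
theorem box_weight {n : ℕ} (N s : ℕ) (P : Finset (Fin n → Fin n))
    (hP : ∀ f ∈ P, Function.Injective f) (hsh : ¬ HasShape N (P : Set (Fin n → Fin n)))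
    (R : Fin n → Finset (Fin n)) (hR : IsBox s P R) :
    ∑ j, ((R j).image (fun v : Fin n => (v : ℕ) / s)).card ≤
      (2 * 4 ^ (N * N + 1) + 1) *
        ((Finset.univ.filter (fun j => R j ≠ ∅)).card + (n / s + 1)) := by
  classical
  by_contra hcon
  rw [not_le] at hcon
  apply hsh
  -- representatives
  have hrep : ∀ j : Fin n, ∀ b : ℕ, ∃ v : Fin n, b ∈ (R j).image (fun v : Fin n => (v : ℕ) / s) →
      v ∈ R j ∧ (v : ℕ) / s = b := by
    intro j b
    by_cases hb : b ∈ (R j).image (fun v : Fin n => (v : ℕ) / s)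
    · obtain ⟨v, hv, hvb⟩ := Finset.mem_image.1 hb
      exact ⟨v, fun _ => ⟨hv, hvb⟩⟩
    · exact ⟨j, fun h => absurd h hb⟩
  choose rep hrep using hrep
  let V : Fin n → Finset ℕ := fun j =>
    ((R j).image (fun v : Fin n => (v : ℕ) / s)).image (fun b => (rep j b : ℕ))
  have hVmem : ∀ j x, x ∈ V j → (∃ v ∈ R j, (v : ℕ) = x) ∧
      x / s ∈ (R j).image (fun v : Fin n => (v : ℕ) / s) ∧ (rep j (x / s) : ℕ) = x := by
    intro j x hx
    obtain ⟨b, hb, rfl⟩ := Finset.mem_image.1 hx
    have h := hrep j b hb
    refine ⟨⟨rep j b, h.1, rfl⟩, ?_, ?_⟩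
    · rw [h.2]
      exact hb
    · rw [h.2]
  have hVcard : ∀ j, (V j).card = ((R j).image (fun v : Fin n => (v : ℕ) / s)).card := by
    intro j
    apply Finset.card_image_of_injOn
    intro b hb b' hb' hbb
    have h1 := (hrep j b hb).2
    have h2 := (hrep j b' hb').2
    simp only at hbb
    rw [← h1, ← h2, hbb]
  have hdisR := box_disjoint P hP R hR
  have hdis : ∀ c c', c ≠ c' → Disjoint (V c) (V c') := by
    intro c c' hcc
    rw [Finset.disjoint_left]
    intro x hx hx'
    obtain ⟨v, hv, hvx⟩ := (hVmem c x hx).1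
    obtain ⟨v', hv', hvx'⟩ := (hVmem c' x hx').1
    have : v = v' := Fin.ext (by omega)
    subst this
    exact Finset.disjoint_left.1 (hdisR c c' hcc) hv hv'
  -- first elements
  let key : Fin n → ℕ := fun c => sInf (V c : Set ℕ)
  have hkmem : ∀ c, (V c).Nonempty → key c ∈ V c := fun c hc => Nat.sInf_mem hc
  have hkle : ∀ c, ∀ x ∈ V c, key c ≤ x := fun c x hx => Nat.sInf_le hx
  let V' : Fin n → Finset ℕ := fun c => (V c).erase (key c)
  have hVV' : ∀ c, V' c ⊆ V c := fun c => Finset.erase_subset _ _
  have hdis' : ∀ c c', c ≠ c' → Disjoint (V' c) (V' c') := fun c c' h =>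
    Finset.disjoint_of_subset_left (hVV' c) (Finset.disjoint_of_subset_right (hVV' c') (hdis c c' h))
  have hkey : ∀ c c', key c = key c' → (V' c).Nonempty → (V' c').Nonempty → c = c' := by
    intro c c' hkk h1 h2
    by_contra hne
    have h3 := hkmem c (h1.mono (hVV' c))
    have h4 := hkmem c' (h2.mono (hVV' c'))
    rw [← hkk] at h4
    exact Finset.disjoint_left.1 (hdis c c' hne) h3 h4
  let J := Finset.univ.filter (fun j => R j ≠ ∅)
  have hW1 : ∑ j, (V j).card = ∑ j ∈ J, (V j).card := by
    symm
    apply Finset.sum_subset (Finset.subset_univ _)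
    intro j _ hj
    simp only [J, Finset.mem_filter, Finset.mem_univ, true_and, not_not] at hj
    simp [V, hj]
  have hW2 : ∑ j ∈ J, (V j).card ≤ ∑ j ∈ J, ((V' j).card + 1) := by
    apply Finset.sum_le_sum
    intro j _
    have := Finset.pred_card_le_card_erase (s := V j) (a := key j)
    simp only [V']
    omega
  have hW3 : ∑ j ∈ J, ((V' j).card + 1) = ∑ j ∈ J, (V' j).card + J.card := by
    rw [Finset.sum_add_distrib]
    simp
  have hbig : 2 * 4 ^ (N * N + 1) * (J.card + (n / s + 1)) < ∑ c ∈ J, (V' c).card := by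
    have h1 : ∑ j, ((R j).image (fun v : Fin n => (v : ℕ) / s)).card = ∑ j, (V j).card := by
      simp_rw [hVcard]
    rw [h1, hW1] at hcon
    have h2 : (2 * 4 ^ (N * N + 1) + 1) * (J.card + (n / s + 1)) =
        2 * 4 ^ (N * N + 1) * (J.card + (n / s + 1)) + (J.card + (n / s + 1)) := by ring
    have hcon' : (2 * 4 ^ (N * N + 1) + 1) * (J.card + (n / s + 1)) < ∑ j ∈ J, (V j).card := hcon
    rw [h2] at hcon'
    have h3 := hcon'.trans_le (hW2.trans_eq hW3)
    generalize 2 * 4 ^ (N * N + 1) * (J.card + (n / s + 1)) = Z at h3 ⊢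
    generalize n / s = q at h3
    omega
  obtain ⟨c, hc, x, y, hrk⟩ := exists_Rk (V := V') (key := key) hdis' hkey (fun v => v / s)
    (fun a b hab => Nat.div_le_div_right hab) (n / s + 1)
    (by
      intro c x hx
      obtain ⟨v, hv, hvx⟩ := (hVmem c x (hVV' c hx)).1
      have hlt := v.2
      have : x / s ≤ n / s := Nat.div_le_div_right (by omega)
      omega)
    (by
      intro c x hx y hy hxy
      have h1 := (hVmem c x (hVV' c hx)).2.2
      have h2 := (hVmem c y (hVV' c hy)).2.2
      rw [← h1, ← h2, hxy])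
    J (N * N) hbig
  obtain ⟨a, X, Y, ha, hX, hY, hmem, hord⟩ := extract (N * N) c x y hrk
  have hXY0 : ∀ i j, i ≤ N * N → j ≤ N * N → X i < Y j := by
    intro i j hi hj
    rcases lt_trichotomy i j with h | h | h
    · have := (hord i j h hj).2.2
      have := (hmem i hi).2.2
      omega
    · subst h
      exact (hmem i hi).2.2
    · have := (hord j i h hi).2.1
      have := (hmem j hj).2.2
      omega
  have hne : ∀ i ≤ N * N, (V (a i)).Nonempty := fun i hi => ⟨_, hVV' _ (hmem i hi).1⟩
  have hlast : ∀ i ≤ N * N, key (a i) < X i := by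
    intro i hi
    have h1 := (hmem i hi).1
    have h2 := Finset.mem_erase.1 h1
    have h3 := hkle _ _ h2.2
    omega
  refine hasShape_of_levels N P R hR (N * N) le_rfl a (fun i => key (a i)) X Y ?_ ?_ ?_ ?_ ?_ ?_ ?_
    ?_ hXY0
  · intro i hi
    exact (hVmem _ _ (hkmem _ (hne i hi))).1
  · intro i hi
    exact (hVmem _ _ (hVV' _ (hmem i hi).1)).1
  · intro i hi
    exact (hVmem _ _ (hVV' _ (hmem i hi).2.1)).1
  · intro i j hij hj h
    have := (hord i j hij hj).1
    rw [h] at this
    exact lt_irrefl _ this
  · intro i j hij hj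
    exact (hord i j hij hj).1
  · intro i j hij hj
    exact (hord i j hij hj).2.1
  · intro i j hij hj
    exact (hord i j hij hj).2.2
  · intro i j hi hj
    have h1 : key (a i) ≤ key (a (N * N)) := by
      rcases Nat.lt_or_ge i (N * N) with h | h
      · exact (hord i (N * N) h le_rfl).1.le
      · have : i = N * N := by omega
        rw [this]
    have h2 : X (N * N) ≤ X j := by
      rcases Nat.lt_or_ge j (N * N) with h | h
      · exact (hord j (N * N) h le_rfl).2.1.le
      · have : j = N * N := by omega
        rw [this]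
    have h3 := hlast (N * N) le_rfl
    omega

end Pool.Agent.H184R3
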