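import Mathlib
import Pool.Agent.H184R3.Shape

set_option autoImplicit false

namespace Pool.Agent.H184R3

open Finset

/-- Standardization: the rank function of a function with values in a linear order. -/
def stdz {k : ℕ} {α : Type*} [LinearOrder α] (g : Fin k → α) : Fin k → Fin k := fun i =>
  ⟨(Finset.univ.filter (fun j => g j < g i)).card, by
    have h : (Finset.univ.filter (fun j => g j < g i)).card < (Finset.univ : Finset (Fin k)).card := by
      apply Finset.card_lt_card
      rw [Finset.ssubset_univ_iff]
      intro h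
      have : i ∈ Finset.univ.filter (fun j => g j < g i) := by
        rw [h]
        exact Finset.mem_univ i
      simp at this
    simpa using h⟩

theorem stdz_lt {k : ℕ} {α : Type*} [LinearOrder α] (g : Fin k → α) (i j : Fin k) :
    stdz g i < stdz g j ↔ g i < g j := by
  rw [Fin.lt_def]
  simp only [stdz]
  constructor
  · intro h
    by_contra hcon
    rw [not_lt] at hcon
    have : (Finset.univ.filter (fun l => g l < g j)).card ≤
        (Finset.univ.filter (fun l => g l < g i)).card := by
      apply Finset.card_le_card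
      intro l hl
      simp only [Finset.mem_filter, Finset.mem_univ, true_and] at hl ⊢
      exact hl.trans_le hcon
    omega
  · intro h
    apply Finset.card_lt_card
    rw [Finset.ssubset_iff_of_subset]
    · refine ⟨i, ?_, ?_⟩
      · simpa using h
      · simp
    · intro l hl
      simp only [Finset.mem_filter, Finset.mem_univ, true_and] at hl ⊢
      exact hl.trans h

theorem stdz_injective {k : ℕ} {α : Type*} [LinearOrder α] (g : Fin k → α)
    (hg : Function.Injective g) : Function.Injective (stdz g) := by
  intro i j hij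
  by_contra hne
  have h1 : g i ≠ g j := fun h => hne (hg h)
  rcases lt_or_gt_of_ne h1 with h | h
  · have := (stdz_lt g i j).2 h
    rw [hij] at this
    exact lt_irrefl _ this
  · have := (stdz_lt g j i).2 h
    rw [hij] at this
    exact lt_irrefl _ this

theorem hasShape_restrict {n k N : ℕ} (P : Finset (Fin n → Fin n)) (e : Fin k ↪o Fin n)
    (h : HasShape N ((P.image (fun π => stdz (fun i => π (e i))) : Finset (Fin k → Fin k)) :
      Set (Fin k → Fin k))) : HasShape N (P : Set (Fin n → Fin n)) := by
  obtain ⟨t, p, hp, h⟩ := h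
  refine ⟨t, fun i => e (p i), fun i j hij => e.strictMono (hp hij), ?_⟩
  intro c
  obtain ⟨g, hg, hgc⟩ := h c
  obtain ⟨π, hπ, rfl⟩ := Finset.mem_image.1 (Finset.mem_coe.1 hg)
  refine ⟨π, hπ, fun i j => ?_⟩
  rw [← hgc i j, stdz_lt]

theorem card_image_le_of_factor {A B C : Type*} [DecidableEq B] [DecidableEq C] (P : Finset A)
    (u : A → B) (Φ : A → C) (h : ∀ x ∈ P, ∀ y ∈ P, Φ x = Φ y → u x = u y) :
    (P.image u).card ≤ (P.image Φ).card := by
  classical
  have hch : ∀ b ∈ P.image u, ∃ x ∈ P, u x = b := fun b hb => Finset.mem_image.1 hb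
  rcases P.eq_empty_or_nonempty with rfl | ⟨x0, _⟩
  · simp
  have : Nonempty A := ⟨x0⟩
  choose! w hwP hw using hch
  apply Finset.card_le_card_of_injOn (fun b => Φ (w b))
  · intro b hb
    exact Finset.mem_coe.2 (Finset.mem_image_of_mem _ (hwP b hb))
  · intro b hb b' hb' hbb
    have := h _ (hwP b hb) _ (hwP b' hb') hbb
    rwa [hw b hb, hw b' hb'] at this

/-- Counting the coarse restrictions of a family to a set of positions. -/
theorem count_coarse {n : ℕ} (s K : ℕ) (P : Finset (Fin n → Fin n))
    (hP : ∀ f ∈ P, Function.Injective f) (J : Finset (Fin n))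
    (hK : ∀ e : Fin J.card ↪o Fin n,
      (P.image (fun π => stdz (fun i => π (e i)))).card ≤ K ^ J.card) :
    (P.image (fun π => fun j => if j ∈ J then ((π j : Fin n) : ℕ) / s else 0)).card ≤
      K ^ J.card * 2 ^ (n / s + 1 + J.card) := by
  classical
  let e : Fin J.card ↪o Fin n := J.orderEmbOfFin rfl
  have he : ∀ j, j ∈ J ↔ ∃ i, e i = j := by
    intro j
    have := Finset.range_orderEmbOfFin J rfl
    constructor
    · intro hj
      have hj' : j ∈ Set.range e := by
        rw [this]
        exact hj
      exact hj'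
    · rintro ⟨i, rfl⟩
      exact Finset.orderEmbOfFin_mem J rfl i
  let ρ : (Fin n → Fin n) → Fin J.card → Fin J.card := fun π => stdz (fun i => π (e i))
  let S : (Fin n → Fin n) → Finset ℕ := fun π =>
    Finset.univ.image (fun i : Fin J.card => ((π (e i) : Fin n) : ℕ) / s + (ρ π i : ℕ))
  have h1 : (P.image (fun π => fun j => if j ∈ J then ((π j : Fin n) : ℕ) / s else 0)).card ≤
      (P.image (fun π => (ρ π, S π))).card := by
    apply card_image_le_of_factor
    intro π hπ π' hπ' hΦ
    have hρ : ρ π = ρ π' := congrArg Prod.fst hΦ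
    have hS : S π = S π' := congrArg Prod.snd hΦ
    have hinj : Function.Injective (ρ π) :=
      stdz_injective _ (fun i j hij => e.injective (hP π hπ hij))
    let σ : Equiv.Perm (Fin J.card) := Equiv.ofBijective (ρ π) (Finite.injective_iff_bijective.1 hinj)
    have hσ : ∀ i, σ i = ρ π i := fun i => rfl
    have hσ' : ∀ l, ρ π (σ.symm l) = l := fun l => σ.apply_symm_apply l
    have hmono : ∀ τ : Fin n → Fin n, ρ τ = ρ π →
        StrictMono (fun l : Fin J.card => ((τ (e (σ.symm l)) : Fin n) : ℕ) / s + (l : ℕ)) := by
      intro τ hτ l l' hll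
      have h2 : τ (e (σ.symm l)) < τ (e (σ.symm l')) := by
        rw [← stdz_lt (fun i => τ (e i))]
        change ρ τ _ < ρ τ _
        rw [hτ, hσ', hσ']
        exact hll
      have h3 : ((τ (e (σ.symm l)) : Fin n) : ℕ) / s ≤ ((τ (e (σ.symm l')) : Fin n) : ℕ) / s :=
        Nat.div_le_div_right h2.le
      have h4 : (l : ℕ) < l' := hll
      simp only
      omega
    have hrange : ∀ τ : Fin n → Fin n, ρ τ = ρ π →
        Set.range (fun l : Fin J.card => ((τ (e (σ.symm l)) : Fin n) : ℕ) / s + (l : ℕ)) =
          (S τ : Set ℕ) := by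
      intro τ hτ
      ext x
      simp only [Set.mem_range, S, Finset.coe_image, Finset.coe_univ, Set.image_univ]
      constructor
      · rintro ⟨l, rfl⟩
        exact ⟨σ.symm l, by rw [hτ, hσ']⟩
      · rintro ⟨i, rfl⟩
        refine ⟨σ i, ?_⟩
        rw [Equiv.symm_apply_apply, hσ, hτ]
    have heq := (StrictMono.range_inj (hmono π rfl) (hmono π' hρ.symm)).1 (by
      rw [hrange π rfl, hrange π' hρ.symm, hS])
    funext j
    by_cases hj : j ∈ J
    · obtain ⟨i, rfl⟩ := (he j).1 hj
      have h5 := congrFun heq (σ i)
      simp only [Equiv.symm_apply_apply] at h5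
      simp only [hj, if_true]
      omega
    · simp [hj]
  refine h1.trans ?_
  have h2 : P.image (fun π => (ρ π, S π)) ⊆
      (P.image (fun π => stdz (fun i => π (e i)))) ×ˢ
        (Finset.range (n / s + 1 + J.card)).powerset := by
    intro x hx
    obtain ⟨π, hπ, rfl⟩ := Finset.mem_image.1 hx
    rw [Finset.mem_product]
    refine ⟨Finset.mem_image_of_mem _ hπ, ?_⟩
    rw [Finset.mem_powerset]
    intro y hy
    obtain ⟨i, -, rfl⟩ := Finset.mem_image.1 hy
    rw [Finset.mem_range]
    have h3 : ((π (e i) : Fin n) : ℕ) / s ≤ n / s := Nat.div_le_div_right (π (e i)).2.le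
    have h4 := (ρ π i).2
    omega
  calc (P.image (fun π => (ρ π, S π))).card ≤ _ := Finset.card_le_card h2
    _ = (P.image (fun π => stdz (fun i => π (e i)))).card * 2 ^ (n / s + 1 + J.card) := by
        rw [Finset.card_product, Finset.card_powerset, Finset.card_range]
    _ ≤ _ := Nat.mul_le_mul_right _ (hK e)

/-- An enumeration of a finite set. -/
noncomputable def en (A : Finset ℕ) (i : ℕ) : ℕ := A.toList.getD i 0

theorem image_en (A : Finset ℕ) : (Finset.range A.card).image (en A) = A := by
  ext x
  simp only [Finset.mem_image, Finset.mem_range, en]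
  constructor
  · rintro ⟨i, hi, rfl⟩
    have hi' : i < A.toList.length := by simpa using hi
    rw [List.getD_eq_getElem _ _ hi']
    exact Finset.mem_toList.1 (List.getElem_mem hi')
  · intro hx
    obtain ⟨i, hi, rfl⟩ := List.getElem_of_mem (Finset.mem_toList.2 hx)
    refine ⟨i, by simpa using hi, ?_⟩
    rw [List.getD_eq_getElem _ _ hi]

theorem en_mem (A : Finset ℕ) (i : ℕ) (hi : i < A.card) : en A i ∈ A := by
  have h : en A i ∈ (Finset.range A.card).image (en A) :=
    Finset.mem_image_of_mem _ (Finset.mem_range.2 hi)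
  rwa [image_en] at h

/-- The number of positions used by a box is small. -/
theorem box_support {n s : ℕ} (hs : 1 ≤ s) (P : Finset (Fin n → Fin n))
    (hP : ∀ f ∈ P, Function.Injective f) (R : Fin n → Finset (Fin n)) (hR : IsBox s P R) :
    (Finset.univ.filter (fun j => R j ≠ ∅)).card ≤ n / s := by
  classical
  have hd := box_disjoint P hP R hR
  rw [Nat.le_div_iff_mul_le (by omega)]
  have h1 : ((Finset.univ.filter (fun j => R j ≠ ∅)).biUnion R).card =
      ∑ j ∈ Finset.univ.filter (fun j => R j ≠ ∅), (R j).card := by
    apply Finset.card_biUnion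
    intro i _ j _ hij
    exact hd i j hij
  have h2 : ∑ j ∈ Finset.univ.filter (fun j => R j ≠ ∅), (R j).card =
      (Finset.univ.filter (fun j => R j ≠ ∅)).card * s := by
    rw [Finset.sum_congr rfl (g := fun _ => s)]
    · simp
    · intro j hj
      have := (Finset.mem_filter.1 hj).2
      rcases hR.1 j with h | h
      · exact absurd h this
      · exact h
  have h3 : ((Finset.univ.filter (fun j => R j ≠ ∅)).biUnion R).card ≤ n := by
    calc _ ≤ (Finset.univ : Finset (Fin n)).card := Finset.card_le_univ _
      _ = n := by simp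
  omega

/-- The coarsening of a box. -/
def coarse {n : ℕ} (s : ℕ) (R : Fin n → Finset (Fin n)) : Fin n → Finset ℕ :=
  fun j => (R j).image (fun v : Fin n => (v : ℕ) / s)

/-- The number of boxes with a given coarsening. -/
theorem fiber_bound {n s : ℕ} (hs : 1 ≤ s) (B : Finset (Fin n → Finset (Fin n)))
    (t : Fin n → Finset ℕ) :
    (B.filter (fun R => coarse s R = t)).card ≤ 2 ^ (s * ∑ j, (t j).card) := by
  classical
  let U : Finset (Σ _ : Fin n, Fin n) :=
    Finset.univ.sigma (fun j => Finset.univ.filter (fun v : Fin n => (v : ℕ) / s ∈ t j))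
  have hU : U.card ≤ s * ∑ j, (t j).card := by
    simp only [U, Finset.card_sigma]
    rw [Finset.mul_sum]
    apply Finset.sum_le_sum
    intro j _
    apply Finset.card_le_mul_card_image_of_maps_to (f := fun v : Fin n => (v : ℕ) / s)
    · intro v hv
      exact (Finset.mem_filter.1 hv).2
    · intro b _
      have : (Finset.filter (fun v : Fin n => (v : ℕ) / s = b)
          (Finset.univ.filter (fun v : Fin n => (v : ℕ) / s ∈ t j))).card ≤
          (Finset.range s).card := by
        apply Finset.card_le_card_of_injOn (fun v : Fin n => (v : ℕ) % s)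
        · intro v _
          simp only [Finset.coe_range, Set.mem_Iio]
          exact Nat.mod_lt _ (by omega)
        · intro v hv v' hv' hvv
          have h1 := (Finset.mem_filter.1 (Finset.mem_coe.1 hv)).2
          have h2 := (Finset.mem_filter.1 (Finset.mem_coe.1 hv')).2
          have h3 := Nat.div_add_mod (v : ℕ) s
          have h4 := Nat.div_add_mod (v' : ℕ) s
          simp only at hvv
          apply Fin.ext
          rw [← h3, ← h4, h1, h2, hvv]
      simpa using this
  calc (B.filter (fun R => coarse s R = t)).card ≤ U.powerset.card := by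
        apply Finset.card_le_card_of_injOn (fun R => (Finset.univ.sigma R : Finset (Σ _ : Fin n, Fin n)))
        · intro R hR
          have hR := (Finset.mem_filter.1 (Finset.mem_coe.1 hR)).2
          rw [Finset.mem_coe, Finset.mem_powerset]
          intro x hx
          obtain ⟨j, v⟩ := x
          simp only [U, Finset.mem_sigma, Finset.mem_univ, true_and, Finset.mem_filter] at hx ⊢
          rw [← hR]
          exact Finset.mem_image_of_mem _ hx
        · intro R _ R' _ hRR
          funext j
          ext v
          have h1 : (⟨j, v⟩ : Σ _ : Fin n, Fin n) ∈ Finset.univ.sigma R ↔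
              (⟨j, v⟩ : Σ _ : Fin n, Fin n) ∈ Finset.univ.sigma R' := by
            have hRR' : Finset.univ.sigma R = Finset.univ.sigma R' := hRR
            rw [hRR']
          simpa using h1
    _ = 2 ^ U.card := Finset.card_powerset _
    _ ≤ _ := Nat.pow_le_pow_right (by norm_num) hU

/-- The main theorem: families of permutations without a large N-shape are exponentially small. -/
theorem main_bound (N : ℕ) : ∃ K : ℕ, ∀ (n : ℕ) (P : Finset (Fin n → Fin n)),
    (∀ f ∈ P, Function.Injective f) → ¬ HasShape N (P : Set (Fin n → Fin n)) →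
      P.card ≤ K ^ n := by
  classical
  obtain ⟨c, hc⟩ : ∃ c, c = 2 * 4 ^ (N * N + 1) + 1 := ⟨_, rfl⟩
  have hc1 : 1 ≤ c := by omega
  obtain ⟨s, hsdef⟩ : ∃ s, s = 8 * c := ⟨_, rfl⟩
  have hs : 1 ≤ s := by omega
  obtain ⟨M, hM⟩ : ∃ M, M = s * (s + 1) * 4 ^ (s + 1) := ⟨_, rfl⟩
  have hM1 : 1 ≤ M := by
    have h1 : 0 < s := hs
    have h2 : 0 < s * (s + 1) * 4 ^ (s + 1) := by positivity
    omega
  have hMs : s ≤ M := by
    rw [hM]
    calc s = s * 1 * 1 := by ring
      _ ≤ s * (s + 1) * 4 ^ (s + 1) := by
        gcongr
        · omega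
        · exact Nat.one_le_pow _ _ (by norm_num)
  refine ⟨M ^ 2, ?_⟩
  intro n
  induction n using Nat.strong_induction_on with
  | _ n ih =>
  intro P hP hsh
  by_cases hn : n < 4 * c
  · calc P.card ≤ (Finset.univ : Finset (Fin n → Fin n)).card := Finset.card_le_univ _
      _ = n ^ n := by simp
      _ ≤ M ^ n := Nat.pow_le_pow_left (by omega) n
      _ ≤ (M ^ 2) ^ n := by
          apply Nat.pow_le_pow_left
          nlinarith
  rw [not_lt] at hn
  obtain ⟨W, hW⟩ : ∃ W, W = c * (2 * (n / s) + 1) := ⟨_, rfl⟩
  have hdiv : s * (n / s) ≤ n := Nat.mul_div_le n s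
  have hW2 : 2 * W ≤ n := by
    have h1 : 2 * (2 * W) = s * (n / s) + 4 * c := by
      rw [hW, hsdef]
      ring
    omega
  have hlt : n / s < n := Nat.div_lt_self (by omega) (by omega)
  -- properties of boxes
  have hbox : ∀ R ∈ Boxes s P, ∑ j, (coarse s R j).card ≤ W ∧
      (Finset.univ.filter (fun j => R j ≠ ∅)).card ≤ n / s := by
    intro R hR
    have hR := mem_Boxes.1 hR
    have h1 := box_weight N s P hP hsh R hR
    have h2 := box_support hs P hP R hR
    refine ⟨?_, h2⟩
    calc ∑ j, (coarse s R j).card ≤ _ := h1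
      _ ≤ c * (n / s + (n / s + 1)) := by
          rw [hc]
          gcongr
      _ = W := by rw [hW]; ring
  -- number of boxes in terms of coarse boxes
  let T := (Boxes s P).image (coarse s)
  have hB : (Boxes s P).card ≤ 2 ^ (s * W) * T.card := by
    apply Finset.card_le_mul_card_image
    intro t ht
    obtain ⟨R, hR, rfl⟩ := Finset.mem_image.1 ht
    refine (fiber_bound hs (Boxes s P) (coarse s R)).trans ?_
    apply Nat.pow_le_pow_right (by norm_num)
    exact Nat.mul_le_mul_left _ (hbox R hR).1
  -- number of coarse boxes with given numbers of elements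
  have hside : ∀ R ∈ Boxes s P, ∀ j, (coarse s R j).card ≤ s := by
    intro R hR j
    refine Finset.card_image_le.trans ?_
    rcases (mem_Boxes.1 hR).1 j with h | h
    · simp [h]
    · exact h.le
  let hh : (Fin n → Finset ℕ) → Fin n → Fin (s + 1) := fun t j =>
    ⟨min (t j).card s, by omega⟩
  have hT : T.card ≤ ((M ^ 2) ^ W * 2 ^ (s * (n / s + 1) + W)) * (s + 1) ^ n := by
    have hcard : (s + 1) ^ n = (Finset.univ : Finset (Fin n → Fin (s + 1))).card := by simp
    rw [hcard]
    apply Finset.card_le_mul_card_image_of_maps_to (f := hh) (fun _ _ => Finset.mem_univ _)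
    intro h _
    let J : Fin s → Finset (Fin n) := fun i => Finset.univ.filter (fun j => (i : ℕ) < (h j : ℕ))
    let Uf : Fin s → Finset (Fin n → ℕ) := fun i =>
      P.image (fun π => fun j => if j ∈ J i then ((π j : Fin n) : ℕ) / s else 0)
    rcases (T.filter (fun t => hh t = h)).eq_empty_or_nonempty with hemp | ⟨t0, ht0⟩
    · rw [hemp]
      simp
    -- the sizes
    have hTmem : ∀ t ∈ T.filter (fun t => hh t = h), ∃ R ∈ Boxes s P, coarse s R = t ∧
        ∀ j, (h j : ℕ) = (t j).card := by
      intro t ht
      obtain ⟨ht1, ht2⟩ := Finset.mem_filter.1 ht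
      obtain ⟨R, hR, rfl⟩ := Finset.mem_image.1 ht1
      refine ⟨R, hR, rfl, ?_⟩
      intro j
      rw [← ht2]
      simp only [hh]
      exact min_eq_left (hside R hR j)
    obtain ⟨R0, hR0, hR0t, hh0⟩ := hTmem t0 ht0
    have hJsum : ∑ i, (J i).card = ∑ j, (t0 j).card := by
      have h1 : ∀ i : Fin s, (J i).card = ∑ j : Fin n, if (i : ℕ) < (h j : ℕ) then 1 else 0 := by
        intro i
        simp only [J, Finset.card_filter]
      simp_rw [h1]
      rw [Finset.sum_comm]
      apply Finset.sum_congr rfl
      intro j _
      rw [← Finset.card_filter, ← hh0 j]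
      have h2 : (h j : ℕ) ≤ s := by
        have := (h j).2
        omega
      rw [Fin.card_filter_val_lt]
      exact min_eq_right h2
    have hJW : ∑ i, (J i).card ≤ W := by
      rw [hJsum, ← hR0t]
      exact (hbox R0 hR0).1
    have hJle : ∀ i, (J i).card ≤ n / s := by
      intro i
      refine le_trans ?_ (hbox R0 hR0).2
      apply Finset.card_le_card
      intro j hj
      rw [Finset.mem_filter] at hj ⊢
      refine ⟨Finset.mem_univ _, ?_⟩
      intro hemp
      have h1 := hj.2
      rw [hh0 j, ← hR0t] at h1
      simp [coarse, hemp] at h1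
    have hUcard : ∀ i, (Uf i).card ≤ (M ^ 2) ^ (J i).card * 2 ^ (n / s + 1 + (J i).card) := by
      intro i
      apply count_coarse s (M ^ 2) P hP (J i)
      intro e
      apply ih _ (lt_of_le_of_lt (hJle i) hlt)
      · intro f hf
        obtain ⟨π, hπ, rfl⟩ := Finset.mem_image.1 hf
        exact stdz_injective _ (fun a b hab => e.injective (hP π hπ hab))
      · intro hcon
        exact hsh (hasShape_restrict P e hcon)
    calc (T.filter (fun t => hh t = h)).card
        ≤ (Fintype.piFinset Uf).card := by
          apply Finset.card_le_card_of_injOn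
            (fun t => fun i : Fin s => fun j => if (i : ℕ) < (h j : ℕ) then en (t j) i else 0)
          · intro t ht
            obtain ⟨R, hR, hRt, hht⟩ := hTmem t (Finset.mem_coe.1 ht)
            rw [Finset.mem_coe, Fintype.mem_piFinset]
            intro i
            -- choose a selection
            have hsel : ∀ j, ∃ v : Fin n, (R j ≠ ∅ → v ∈ R j) ∧
                ((i : ℕ) < (h j : ℕ) → ((v : ℕ) / s = en (t j) i)) := by
              intro j
              by_cases hij : (i : ℕ) < (h j : ℕ)
              · have h1 := en_mem (t j) i (by rw [← hht j]; exact hij)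
                rw [← hRt] at h1
                obtain ⟨v, hv, hvs⟩ := Finset.mem_image.1 h1
                refine ⟨v, fun _ => hv, fun _ => ?_⟩
                rw [hvs, hRt]
              · by_cases hRj : R j = ∅
                · exact ⟨j, fun hh => absurd hRj hh, fun hh => absurd hh hij⟩
                · obtain ⟨v, hv⟩ := Finset.nonempty_iff_ne_empty.2 hRj
                  exact ⟨v, fun _ => hv, fun hh => absurd hh hij⟩
            choose g hg1 hg2 using hsel
            obtain ⟨π, hπ, hπg⟩ := (mem_Boxes.1 hR).2 g hg1
            refine Finset.mem_image.2 ⟨π, hπ, ?_⟩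
            funext j
            simp only [J, Finset.mem_filter, Finset.mem_univ, true_and]
            by_cases hij : (i : ℕ) < (h j : ℕ)
            · have hRj : R j ≠ ∅ := by
                intro hemp
                have h1 := hij
                rw [hht j, ← hRt] at h1
                simp [coarse, hemp] at h1
              simp only [hij, if_true]
              rw [hπg j hRj, hg2 j hij]
            · simp only [hij, if_false]
          · intro t ht t' ht' htt
            obtain ⟨R, hR, hRt, hht⟩ := hTmem t (Finset.mem_coe.1 ht)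
            obtain ⟨R', hR', hRt', hht'⟩ := hTmem t' (Finset.mem_coe.1 ht')
            funext j
            rw [← image_en (t j), ← image_en (t' j), ← hht j, ← hht' j]
            apply Finset.image_congr
            intro i hi
            have hi' : i < (h j : ℕ) := by simpa using hi
            have his : i < s := by
              have := (h j).2
              omega
            have h1 := congrFun (congrFun htt ⟨i, his⟩) j
            simpa [hi'] using h1
      _ = ∏ i, (Uf i).card := Fintype.card_piFinset _
      _ ≤ ∏ i : Fin s, ((M ^ 2) ^ (J i).card * 2 ^ (n / s + 1 + (J i).card)) :=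
          Finset.prod_le_prod' (fun i _ => hUcard i)
      _ = (M ^ 2) ^ (∑ i, (J i).card) * 2 ^ (s * (n / s + 1) + ∑ i, (J i).card) := by
          rw [Finset.prod_mul_distrib, Finset.prod_pow_eq_pow_sum, Finset.prod_pow_eq_pow_sum,
            Finset.sum_add_distrib]
          simp
      _ ≤ (M ^ 2) ^ W * 2 ^ (s * (n / s + 1) + W) := by
          apply Nat.mul_le_mul
          · exact Nat.pow_le_pow_right (by positivity) hJW
          · exact Nat.pow_le_pow_right (by norm_num) (by omega)
  -- final computation
  have hfin1 : (M ^ 2) ^ W ≤ M ^ n := by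
    rw [← pow_mul]
    exact Nat.pow_le_pow_right hM1 hW2
  have hfin2 : 2 ^ (s * W) * 2 ^ (s * (n / s + 1) + W) ≤ (4 ^ (s + 1)) ^ n := by
    rw [← pow_add, show (4 : ℕ) = 2 ^ 2 by norm_num, ← pow_mul, ← pow_mul]
    apply Nat.pow_le_pow_right (by norm_num)
    have h1 : s * W ≤ s * n := Nat.mul_le_mul_left _ (by omega)
    have h2 : s * (n / s + 1) = s * (n / s) + s := by ring
    have h3 : s ≤ s * n := Nat.le_mul_of_pos_right s (by omega)
    have h4 : (s + 1) * n = s * n + n := by ring

    rw [h4, h2]
    omega
  calc P.card ≤ s ^ n * (Boxes s P).card := box_lemma s hs n P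
    _ ≤ s ^ n * (2 ^ (s * W) * (((M ^ 2) ^ W * 2 ^ (s * (n / s + 1) + W)) * (s + 1) ^ n)) := by
        gcongr
        exact hB.trans (Nat.mul_le_mul_left _ hT)
    _ = s ^ n * (s + 1) ^ n * (2 ^ (s * W) * 2 ^ (s * (n / s + 1) + W)) * (M ^ 2) ^ W := by ring
    _ ≤ s ^ n * (s + 1) ^ n * (4 ^ (s + 1)) ^ n * M ^ n := by gcongr
    _ = (M ^ 2) ^ n := by
        rw [← mul_pow, ← mul_pow, ← hM, ← mul_pow]
        ring

end Pool.Agent.H184R3
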